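import Pool.Agent.H.MP_e59a69_co.B

namespace Pool.Agent.Results.MP_e59a69_co.Oddness
open Finset Pool.Agent.H.MP_e59a69_co

variable {V : Type} [Fintype V]

/-- An integer `k`-flow on a simple graph: `φ u v` is the value sent along the edge `uv` from `u`
to `v` (so `φ v u = - φ u v`); not required to be nowhere-zero. -/
def IsFlow (G : SimpleGraph V) (k : ℤ) (φ : V → V → ℤ) : Prop :=
  (∀ u v, φ u v = - φ v u) ∧ (∀ u v, ¬ G.Adj u v → φ u v = 0) ∧ (∀ u v, |φ u v| ≤ k - 1) ∧
    ∀ u, ∑ v, φ u v = 0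

/-- `G` admits a `1/2`-flow-pair. -/
def HasPair (G : SimpleGraph V) : Prop :=
  ∃ φ₂ φ₄ : V → V → ℤ, IsFlow G 2 φ₂ ∧ IsFlow G 4 φ₄ ∧
    ∀ u v, G.Adj u v → φ₂ u v = 0 → 2 ≤ |φ₄ u v|

/-- `G` has a 2-factor with at most `w` odd cycles (oddness at most `w`). -/
def OddnessLE (G : SimpleGraph V) (w : ℕ) : Prop :=
  ∃ F : SimpleGraph V, F ≤ G ∧ (∀ v, (F.neighborSet v).ncard = 2) ∧ F.oddComponents.ncard ≤ w

/-- `S` contains a cycle of `G`. -/
def HasCycleIn (G : SimpleGraph V) (S : Set V) : Prop :=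
  ∃ (u : V) (p : G.Walk u u), p.IsCycle ∧ ∀ w ∈ p.support, w ∈ S

/-- Cyclically `c`-edge-connected: every edge cut with a cycle on each side has at least `c`
edges. -/
def CycConn (G : SimpleGraph V) (c : ℕ) : Prop :=
  ∀ S : Set V, HasCycleIn G S → HasCycleIn G Sᶜ →
    c ≤ {p : V × V | p.1 ∈ S ∧ p.2 ∉ S ∧ G.Adj p.1 p.2}.ncard

theorem result (V : Type) [Fintype V] (G : SimpleGraph V) (k : ℕ)
    (hcubic : ∀ v, (G.neighborSet v).ncard = 3) (hodd : OddnessLE G (2 * k))
    (hcyc : CycConn G (5 * k - 1)) : HasPair G := by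
  classical
  obtain ⟨F, hFG, hF, hodd⟩ := hodd
  obtain ⟨σ, π, s1, s2, p1, p2, p3, p4⟩ := struct F hF
  have s1' : ∀ v, F.Adj v (σ.symm v) := fun v => by simpa using (s1 (σ.symm v)).symm
  have s3 : ∀ v, σ v ≠ σ.symm v := fun v h => s2 v (by rw [h]; simp)
  have hFa : ∀ u v, F.Adj u v ↔ v = σ u ∨ v = σ.symm u := by
    intro u v
    have : ({σ u, σ.symm u} : Set V) = F.neighborSet u :=
      Set.eq_of_subset_of_ncard_le (by rintro _ (rfl | rfl); exacts [s1 u, s1' u])
        (by rw [hF, Set.ncard_pair (s3 u)])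
    rw [← SimpleGraph.mem_neighborSet, ← this]; simp
  have hμ : ∀ u, ∃ w, G.neighborSet u \ F.neighborSet u = {w} := fun u => by
    have hs : F.neighborSet u ⊆ G.neighborSet u := fun w hw => hFG hw
    rw [← Set.ncard_eq_one, Set.ncard_diff hs, hcubic, hF]
  choose μ hμ using hμ
  have hμ' : ∀ u v, v = μ u ↔ G.Adj u v ∧ ¬ F.Adj u v := fun u v => by
    rw [← Set.mem_singleton_iff, ← hμ]; rfl
  have m0 := fun u => (hμ' u (μ u)).1 rfl
  have m1 : ∀ v, μ (μ v) = v := fun v =>
    ((hμ' (μ v) v).2 ⟨(m0 v).1.symm, fun h => (m0 v).2 h.symm⟩).symm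
  have m2 : ∀ v, μ v ≠ v := fun v => (m0 v).1.ne.symm
  have d1 : ∀ v, μ v ≠ σ v := fun v h => (m0 v).2 (h ▸ s1 v)
  have d2 : ∀ v, μ v ≠ σ.symm v := fun v h => (m0 v).2 (h ▸ s1' v)
  have hGa : ∀ u v, G.Adj u v ↔ v = σ u ∨ v = σ.symm u ∨ v = μ u := by
    intro u v
    rw [← or_assoc, ← hFa, hμ']
    have := @hFG u v
    tauto
  have hcycF : F.IsCycles := fun v _ => hF v
  have hin : ∀ (S : Set V) v, (∀ w, F.connectedComponentMk w = F.connectedComponentMk v → w ∈ S) →
      HasCycleIn G S := by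
    intro S v h
    obtain ⟨p, a1, a2⟩ := hcycF.exists_cycle_toSubgraph_verts_eq_connectedComponentSupp
      (c := F.connectedComponentMk v) (v := v) rfl ⟨_, s1 v⟩
    refine ⟨v, p.mapLe hFG, a1.mapLe hFG, fun w hw => h w ?_⟩
    rw [SimpleGraph.Walk.support_mapLe_eq_support, ← SimpleGraph.Walk.mem_verts_toSubgraph,
      a2] at hw
    exact hw
  obtain ⟨s, t1, t2, t3⟩ := core F.connectedComponentMk σ π μ k
    (fun v => SimpleGraph.ConnectedComponent.connectedComponentMk_eq_of_adj (s1 v).symm)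
    (fun T a b v hv w hw => by
      obtain ⟨p⟩ := (SimpleGraph.ConnectedComponent.eq.1 hw).symm
      clear hw
      induction p with
      | nil => exact hv
      | cons h _ ih =>
        refine ih ?_
        rcases (hFa _ _).1 h with rfl | rfl
        · exact a _ hv
        · exact b _ hv) m1 m2 p1 p2 p4 (by
      refine le_trans ?_ hodd
      rw [← Set.ncard_coe_finset]
      exact Set.ncard_le_ncard_of_injOn F.connectedComponentMk
        (fun v hv => p3 v (by simpa using hv))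
        (fun v hv w hw => p4 v w (by simpa using hv) (by simpa using hw)))
    (fun S ⟨v, hv⟩ ⟨w, hw⟩ => by
      refine (hcyc S (hin _ v hv) (hin _ w hw)).trans ?_
      have : {p : V × V | p.1 ∈ (S : Set V) ∧ p.2 ∉ (S : Set V) ∧ G.Adj p.1 p.2} ⊆
          (((S.filter fun u => σ u ∉ S).image (fun u => (u, σ u)) ∪
            (S.filter fun u => σ.symm u ∉ S).image (fun u => (u, σ.symm u)) ∪
            (S.filter fun u => μ u ∉ S).image (fun u => (u, μ u)) : Finset (V × V)) :
            Set (V × V)) := by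
        rintro ⟨a, b⟩ ⟨h1, h2, h3⟩
        simp only [Finset.mem_coe, Finset.mem_union, Finset.mem_image, Finset.mem_filter] at h1 h2 ⊢
        rcases (hGa a b).1 h3 with h | h | h
        · exact Or.inl (Or.inl ⟨a, ⟨h1, h ▸ h2⟩, by rw [← h]⟩)
        · exact Or.inl (Or.inr ⟨a, ⟨h1, h ▸ h2⟩, by rw [← h]⟩)
        · exact Or.inr ⟨a, ⟨h1, h ▸ h2⟩, by rw [← h]⟩
      refine (Set.ncard_le_ncard this).trans ?_
      rw [Set.ncard_coe_finset]
      exact (Finset.card_union_le _ _).trans (add_le_add ((Finset.card_union_le _ _).trans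
        (add_le_add Finset.card_image_le Finset.card_image_le)) Finset.card_image_le))
  let c : V → V → ℤ := fun u v => (if v = σ u then 3 else 0) + (if v = σ.symm u then 3 else 0) +
    (if v = μ u then (if s u = 1 then -2 else 3) else 0)
  have c0 : ∀ u v, ¬ G.Adj u v → c u v = 0 := fun u v h => by
    rw [hGa, not_or, not_or] at h
    simp [c, h.1, h.2.1, h.2.2]
  have c1 : ∀ u v, F.Adj u v → c u v = 3 := fun u v h => by
    rcases (hFa u v).1 h with rfl | rfl
    · simp [c, s3 u, (d1 u).symm]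
    · simp [c, (s3 u).symm, (d2 u).symm]
  have c2 : ∀ u, c u (μ u) = if s u = 1 then -2 else 3 := fun u => by simp [c, d1 u, d2 u]
  have c3 : ∀ u, c (μ u) u = if s u = 1 then 3 else -2 := fun u => by
    have := c2 (μ u)
    rw [m1, t2] at this
    rw [this]; rcases t1 u with h | h <;> simp [h]
  have c4 : ∀ u v, c u v ≤ 3 ∧ 0 ≤ c u v + c v u := by
    intro u v
    by_cases h : G.Adj u v
    · by_cases h' : F.Adj u v
      · rw [c1 u v h', c1 v u h'.symm]; norm_num
      · rw [(hμ' u v).2 ⟨h, h'⟩, c2, c3]; split_ifs <;> norm_num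
    · rw [c0 u v h, c0 v u fun h' => h h'.symm]; norm_num
  obtain ⟨f, f1, f2, f3⟩ := hoffman c (fun u v => (c4 u v).2) (fun S => by
    refine (t3 S).trans (le_of_eq ?_)
    simp only [c, Finset.sum_add_distrib, Finset.sum_ite_eq', Finset.mem_compl, ex,
      Finset.card_filter, Nat.cast_sum, Finset.mul_sum]
    congr 2 <;> exact Finset.sum_congr rfl fun u _ => by split_ifs <;> simp)
  refine ⟨fun u v => (if v = σ u then 1 else 0) - (if v = σ.symm u then 1 else 0), f,
    ⟨fun u v => ?_, fun u v h => ?_, fun u v => ?_, fun u => ?_⟩,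
    ⟨f1, fun u v h => ?_, fun u v => ?_, f3⟩, fun u v h h0 => ?_⟩
  · have e1 : v = σ u ↔ u = σ.symm v := ⟨fun h => by simp [h], fun h => by simp [h]⟩
    have e2 : v = σ.symm u ↔ u = σ v := ⟨fun h => by simp [h], fun h => by simp [h]⟩
    simp only [e1, e2]; ring
  · rw [hGa, not_or, not_or] at h
    simp [h.1, h.2.1]
  · dsimp only; split_ifs <;> norm_num
  · simp [Finset.sum_sub_distrib]
  · have a1 := f2 u v
    have a2 := f2 v u
    rw [c0 u v h] at a1
    rw [c0 v u fun h' => h h'.symm, f1] at a2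
    omega
  · have a1 := (f2 u v).trans (c4 u v).1
    have a2 := (f2 v u).trans (c4 v u).1
    rw [f1] at a2
    rw [abs_le]; omega
  · rcases (hGa u v).1 h with rfl | rfl | rfl
    · simp [s3 u] at h0
    · simp [(s3 u).symm] at h0
    · have a1 := f2 u (μ u)
      have a2 := f2 (μ u) u
      rw [c2] at a1
      rw [c3, f1] at a2
      rw [le_abs]
      split_ifs at a1 a2 <;> omega

end Pool.Agent.Results.MP_e59a69_co.Oddness
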